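import Mathlib

set_option autoImplicit false

/-! Elementary part of module Q6a. -/

open MeasureTheory Filter Topology Set

noncomputable section

namespace Pool.Agent.helper63.NU

/-- The bound for `∑ m_j` from the average bound for the normalised weights. -/
theorem q6_elem {X : Type*} [MeasurableSpace X] {μ : Measure X} [IsProbabilityMeasure μ] {N : ℕ}
    {f : Fin N → X → ℝ} (hf : ∀ j, Measurable (f j)) (hf0 : ∀ j x, 0 ≤ f j x) {a b : ℝ}
    (ha : 0 < a) (hlo : ∀ x, a ≤ ∑ j, f j x) (hup : ∀ x, ∑ j, f j x ≤ b) {m : Fin N → ℕ} {D : ℝ}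
    (hD : ∀ j, (m j : ℝ) ≤ D) {θ nn c : ℝ} (hθ : 0 < θ) (hc : ∀ j, ∫ x, f j x ∂μ = c)
    (havg : θ * ∑ j, m j * (∫ x, f j x / (∑ i, f i x) *
      ((∑ i, f i x) ^ (-θ) / ∫ x, (∑ i, f i x) ^ (-θ) ∂μ) ∂μ) ≤ nn) :
    (∑ j, (m j : ℝ)) * c ≤ a * (nn / θ) * (b / a) ^ θ + D * (N * c - a) := by
  obtain ⟨x₀⟩ : Nonempty X := by
    by_contra h
    rw [not_nonempty_iff] at h
    have : μ univ = 0 := by rw [Set.univ_eq_empty_iff.mpr h]; simp
    simp at this
  set ρ : X → ℝ := fun x => ∑ j, f j x with hρdef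
  have hρ : Measurable ρ := Finset.measurable_sum _ fun j _ => hf j
  have hb : 0 < b := ha.trans_le ((hlo x₀).trans (hup x₀))
  have hρp : ∀ x, 0 < ρ x := fun x => ha.trans_le (hlo x)
  have hmeas : Measurable fun x => ρ x ^ (-θ) := hρ.pow_const _
  have hlo' : ∀ x, b ^ (-θ) ≤ ρ x ^ (-θ) := fun x =>
    Real.rpow_le_rpow_of_nonpos (hρp x) (hup x) (by linarith)
  have hup' : ∀ x, ρ x ^ (-θ) ≤ a ^ (-θ) := fun x =>
    Real.rpow_le_rpow_of_nonpos ha (hlo x) (by linarith)
  have hint : Integrable (fun x => ρ x ^ (-θ)) μ := by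
    refine Integrable.of_bound hmeas.aestronglyMeasurable (a ^ (-θ)) (Eventually.of_forall fun x => ?_)
    rw [Real.norm_eq_abs, abs_of_pos (Real.rpow_pos_of_pos (hρp x) _)]
    exact hup' x
  set Z := ∫ x, ρ x ^ (-θ) ∂μ with hZ
  have hZ1 : b ^ (-θ) ≤ Z := by
    have := integral_mono (μ := μ) (integrable_const _) hint hlo'
    simpa using this
  have hZ2 : Z ≤ a ^ (-θ) := by
    have := integral_mono (μ := μ) hint (integrable_const _) hup'
    simpa using this
  have hbp : 0 < b ^ (-θ) := Real.rpow_pos_of_pos hb _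
  have hZp : 0 < Z := hbp.trans_le hZ1
  set q := (b / a) ^ θ with hq
  have hq1 : 1 ≤ q := by
    refine Real.one_le_rpow ?_ hθ.le
    rw [le_div_iff₀ ha, one_mul]
    exact (hlo x₀).trans (hup x₀)
  have hqp : 0 < q := by linarith
  have hqe : a ^ (-θ) / b ^ (-θ) = q := by
    rw [hq, Real.div_rpow hb.le ha.le, Real.rpow_neg ha.le, Real.rpow_neg hb.le]
    field_simp
  set r : X → ℝ := fun x => ρ x ^ (-θ) / Z with hr
  have hrm : Measurable r := hmeas.div_const _
  have hr1 : ∀ x, r x ≤ q := by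
    intro x
    rw [← hqe]
    simp only [hr]
    exact div_le_div₀ (Real.rpow_pos_of_pos ha _).le (hup' x) hbp hZ1
  have hr2 : ∀ x, 1 / q ≤ r x := by
    intro x
    rw [← hqe, one_div_div]
    simp only [hr]
    exact div_le_div₀ (Real.rpow_pos_of_pos (hρp x) _).le (hlo' x) hZp hZ2
  have hrp : ∀ x, 0 < r x := fun x => (by positivity : (0 : ℝ) < 1 / q).trans_le (hr2 x)
  -- the quotients
  have hfle : ∀ j x, f j x ≤ ρ x := fun j x =>
    Finset.single_le_sum (f := fun i => f i x) (fun i _ => hf0 i x) (Finset.mem_univ j)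
  have hg1 : ∀ j x, f j x / ρ x ≤ 1 := fun j x => by
    rw [div_le_one (hρp x)]; exact hfle j x
  have hg0 : ∀ j x, 0 ≤ f j x / ρ x := fun j x => div_nonneg (hf0 j x) (hρp x).le
  have hgm : ∀ j, Measurable fun x => f j x / ρ x := fun j => (hf j).div hρ
  have hgint : ∀ j, Integrable (fun x => f j x / ρ x) μ := fun j => by
    refine Integrable.of_bound (hgm j).aestronglyMeasurable 1 (Eventually.of_forall fun x => ?_)
    rw [Real.norm_eq_abs, abs_of_nonneg (hg0 j x)]
    exact hg1 j x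
  have hgrint : ∀ j, Integrable (fun x => f j x / ρ x * r x) μ := fun j => by
    refine Integrable.of_bound ((hgm j).mul hrm).aestronglyMeasurable (1 * q)
      (Eventually.of_forall fun x => ?_)
    rw [Real.norm_eq_abs, abs_of_nonneg (mul_nonneg (hg0 j x) (hrp x).le)]
    exact mul_le_mul (hg1 j x) (hr1 x) (hrp x).le zero_le_one
  have hfint : ∀ j, Integrable (f j) μ := fun j => by
    refine Integrable.of_bound (hf j).aestronglyMeasurable b (Eventually.of_forall fun x => ?_)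
    rw [Real.norm_eq_abs, abs_of_nonneg (hf0 j x)]
    exact (hfle j x).trans (hup x)
  -- step 1
  have h1 : ∀ j, ∫ x, f j x / ρ x ∂μ ≤ q * ∫ x, f j x / ρ x * r x ∂μ := by
    intro j
    rw [← integral_const_mul]
    refine integral_mono (hgint j) ((hgrint j).const_mul q) fun x => ?_
    have h2 : f j x / ρ x * (1 / q) ≤ f j x / ρ x * r x :=
      mul_le_mul_of_nonneg_left (hr2 x) (hg0 j x)
    show f j x / ρ x ≤ q * (f j x / ρ x * r x)
    calc f j x / ρ x = q * (f j x / ρ x * (1 / q)) := by field_simp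
      _ ≤ q * (f j x / ρ x * r x) := mul_le_mul_of_nonneg_left h2 hqp.le
  have h2 : ∑ j, (m j : ℝ) * ∫ x, f j x / ρ x ∂μ ≤ nn / θ * q := by
    have h3 : ∑ j, (m j : ℝ) * ∫ x, f j x / ρ x ∂μ
        ≤ q * ∑ j, (m j : ℝ) * ∫ x, f j x / ρ x * r x ∂μ := by
      rw [Finset.mul_sum]
      refine Finset.sum_le_sum fun j _ => ?_
      calc (m j : ℝ) * ∫ x, f j x / ρ x ∂μ ≤ m j * (q * ∫ x, f j x / ρ x * r x ∂μ) :=
            mul_le_mul_of_nonneg_left (h1 j) (Nat.cast_nonneg _)
        _ = q * (m j * ∫ x, f j x / ρ x * r x ∂μ) := by ring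
    have h4 : ∑ j, (m j : ℝ) * ∫ x, f j x / ρ x * r x ∂μ ≤ nn / θ := by
      rw [le_div_iff₀ hθ, mul_comm]
      exact havg
    calc _ ≤ q * ∑ j, (m j : ℝ) * ∫ x, f j x / ρ x * r x ∂μ := h3
      _ ≤ q * (nn / θ) := mul_le_mul_of_nonneg_left h4 hqp.le
      _ = nn / θ * q := mul_comm _ _
  -- step 2
  set S : X → ℝ := fun x => ∑ j, (m j : ℝ) * (f j x / ρ x) with hS
  have hS1 : ∀ x, S x ≤ D := by
    intro x
    have h3 : S x ≤ ∑ j, D * (f j x / ρ x) :=
      Finset.sum_le_sum fun j _ => mul_le_mul_of_nonneg_right (hD j) (hg0 j x)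
    rw [← Finset.mul_sum, ← Finset.sum_div] at h3
    have h4 : (∑ i, f i x) / ρ x = 1 := div_self (hρp x).ne'
    rw [h4, mul_one] at h3
    exact h3
  have hpt : ∀ x, ∑ j, (m j : ℝ) * f j x ≤ a * S x + D * (ρ x - a) := by
    intro x
    have h3 : ∑ j, (m j : ℝ) * f j x = ρ x * S x := by
      simp only [hS]
      rw [Finset.mul_sum]
      refine Finset.sum_congr rfl fun j _ => ?_
      have := (hρp x).ne'
      field_simp
    rw [h3]
    nlinarith [hS1 x, hlo x, mul_nonneg (sub_nonneg.2 (hlo x)) (sub_nonneg.2 (hS1 x))]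
  have hSint : Integrable S μ := integrable_finsetSum _ fun j _ => (hgint j).const_mul _
  have hρint : Integrable ρ μ := integrable_finsetSum _ fun j _ => hfint j
  have hI : ∫ x, ∑ j, (m j : ℝ) * f j x ∂μ ≤ ∫ x, (a * S x + D * (ρ x - a)) ∂μ :=
    integral_mono (integrable_finsetSum _ fun j _ => (hfint j).const_mul _)
      ((hSint.const_mul a).add ((hρint.sub (integrable_const a)).const_mul D)) hpt
  have hL : ∫ x, ∑ j, (m j : ℝ) * f j x ∂μ = (∑ j, (m j : ℝ)) * c := by
    rw [integral_finsetSum _ fun j _ => (hfint j).const_mul _, Finset.sum_mul]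
    refine Finset.sum_congr rfl fun j _ => ?_
    rw [integral_const_mul, hc j]
  have hSI : ∫ x, S x ∂μ = ∑ j, (m j : ℝ) * ∫ x, f j x / ρ x ∂μ := by
    simp only [hS]
    rw [integral_finsetSum _ fun j _ => (hgint j).const_mul _]
    exact Finset.sum_congr rfl fun j _ => integral_const_mul _ _
  have hρI : ∫ x, ρ x ∂μ = N * c := by
    simp only [hρdef]
    rw [integral_finsetSum _ fun j _ => hfint j, Finset.sum_congr rfl fun j _ => hc j,
      Finset.sum_const, Finset.card_univ, Fintype.card_fin, nsmul_eq_mul]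
  have hR : ∫ x, (a * S x + D * (ρ x - a)) ∂μ
      = a * (∑ j, (m j : ℝ) * ∫ x, f j x / ρ x ∂μ) + D * (N * c - a) := by
    have hI1 : Integrable (fun x => a * S x) μ := hSint.const_mul a
    have hI2 : Integrable (fun x => D * (ρ x - a)) μ := (hρint.sub (integrable_const a)).const_mul D
    rw [integral_add hI1 hI2, integral_const_mul, integral_const_mul,
      integral_sub hρint (integrable_const a), hSI, hρI]
    simp
  rw [hL, hR] at hI
  have h5 : a * (∑ j, (m j : ℝ) * ∫ x, f j x / ρ x ∂μ) ≤ a * (nn / θ * q) :=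
    mul_le_mul_of_nonneg_left h2 ha.le
  calc _ ≤ _ := hI
    _ ≤ a * (nn / θ * q) + D * (N * c - a) := by linarith
    _ = a * (nn / θ) * q + D * (N * c - a) := by ring

end Pool.Agent.helper63.NU
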