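import Pool.Agent.helper63.NU.Defs3
import Pool.Agent.helper51.NU.B3
import Pool.Agent.helper80.NU.B4
import Pool.Agent.helper74.NU.Q2
import Pool.Agent.helper17.NU.Q4a
import Pool.Agent.helper91.NU.Q4b
import Pool.Agent.helper78.NU.Q6aElem

set_option autoImplicit false
set_option linter.all false

/-! Module Q6a: dimension of the spaces of sections, sum of the orders of vanishing. -/

open MeasureTheory Filter Topology Set
open scoped ContDiff Manifold Matrix ENNReal ComplexOrder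

noncomputable section

namespace Pool.Agent.helper63.NU

variable {n : ℕ} {M : Type*} [TopologicalSpace M] [ChartedSpace (E n) M]
  [IsManifold 𝓘(ℂ, E n) ω M]
variable [CompactSpace M] [T2Space M] [ConnectedSpace M]
variable [MeasurableSpace M] [BorelSpace M] {μ : Measure M} {φ : Fam n M ℝ}

theorem q6_hp_self (k : ℕ) (φ : Fam n M ℝ) (s : Fam n M ℂ) (x : M) :
    hp k φ s s x = ((nrm k φ s x : ℝ) : ℂ) := by
  unfold hp nrm
  rw [Complex.mul_conj, Complex.normSq_eq_norm_sq]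
  push_cast
  ring

theorem q6_nrm_nonneg (k : ℕ) (φ : Fam n M ℝ) (s : Fam n M ℂ) (x : M) : 0 ≤ nrm k φ s x :=
  mul_nonneg (sq_nonneg _) (Real.exp_pos _).le

theorem q6_integrable [IsProbabilityMeasure μ] {f : M → ℝ} (hf : Continuous f) :
    Integrable f μ :=
  hf.integrable_of_hasCompactSupport (HasCompactSupport.of_compactSpace f)

theorem H0_lower [IsProbabilityMeasure μ] (hφ : IsPos 1 φ) (hμ : IsDens μ φ)
    (hdl : ∀ x, dl φ x = (Real.pi * (n + 1)) ^ n / n.factorial) {ε : ℝ} (hε : 0 < ε) :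
    ∃ k₀ : ℕ, ∀ k ≥ k₀, (1 - ε) * ((n + 1) ^ n / n.factorial) * (k : ℝ) ^ n
      ≤ Module.finrank ℂ (H0 n M k) := by
  have hπ := Real.pi_pos
  have hε' : 0 < min ε (1 / 2) := lt_min hε (by norm_num)
  have hε1 : min ε (1 / 2) < 1 := (min_le_right _ _).trans_lt (by norm_num)
  obtain ⟨k₀, hk₀⟩ := onb_lower (μ := μ) hφ hμ hε' hε1
  refine ⟨k₀, fun k hk => ?_⟩
  obtain ⟨hk1, h1⟩ := hk₀ k hk
  obtain ⟨N, s, hs⟩ := onb_exists (μ := μ) hφ hμ hk1
  obtain ⟨-, hρ⟩ := h1 N s hs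
  obtain ⟨hNf, hint⟩ := onb_card hφ hμ hk1 hs
  have hh : ∀ j, IsHol k (s j) := fun j => (hs.1 j).1
  have hρc : Continuous fun x => ∑ j, nrm k φ (s j) x :=
    continuous_finset_sum _ fun j _ => continuous_nrm hφ.toIsWeight (hh j).toIsSec
  have h2 : (1 - min ε (1 / 2)) * (k / Real.pi) ^ n ≤ ∫ x, ∑ j, nrm k φ (s j) x ∂μ := by
    have := integral_mono (μ := μ) (integrable_const _) (q6_integrable hρc) hρ
    simpa using this
  simp_rw [hdl] at hint
  rw [integral_mul_const] at hint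
  rw [← hNf, ← hint]
  have hv : 0 < (Real.pi * (n + 1)) ^ n / (n.factorial : ℝ) := by positivity
  have h3 := mul_le_mul_of_nonneg_right h2 hv.le
  refine le_trans ?_ h3
  have h4 : (1 - min ε (1 / 2)) * (k / Real.pi) ^ n * ((Real.pi * (n + 1)) ^ n / (n.factorial : ℝ))
      = (1 - min ε (1 / 2)) * (((n + 1) ^ n / n.factorial) * (k : ℝ) ^ n) := by
    rw [div_pow, mul_pow]
    field_simp
  rw [h4, mul_assoc]
  apply mul_le_mul_of_nonneg_right _ (by positivity)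
  linarith [min_le_left ε (1 / 2 : ℝ)]

theorem q6_VV_zero {k : ℕ} {e : Ch n M} (he : e ∈ atlas (E n) M) {p : E n} (hp : p ∈ e.target) :
    VV k e p 0 = H0 n M k := by
  apply le_antisymm
  · intro s hs
    exact hs.1
  · intro s hs
    refine ⟨hs, ‖s e p‖ + 1, ?_⟩
    have h1 : IsHol k s := hs.1
    have h2 : ContinuousAt (s e) p :=
      (h1.smooth e he).continuousOn.continuousAt (e.open_target.mem_nhds hp)
    have h3 : ∀ᶠ y in 𝓝 p, ‖s e y‖ < ‖s e p‖ + 1 :=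
      h2.norm.eventually_lt_const (by linarith)
    filter_upwards [h3] with y hy
    rw [pow_zero, mul_one]
    exact hy.le

theorem q6_VV_succ_le {k : ℕ} {e : Ch n M} {p : E n} (m : ℕ) :
    VV k e p (m + 1) ≤ VV k e p m := by
  rintro s ⟨hs, K, hK⟩
  refine ⟨hs, max K 0, ?_⟩
  have h1 : ∀ᶠ y in 𝓝 p, ‖y - p‖ < 1 := by
    have : Tendsto (fun y : E n => ‖y - p‖) (𝓝 p) (𝓝 ‖p - p‖) :=
      (continuous_id.sub continuous_const).norm.tendsto p
    rw [sub_self, norm_zero] at this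
    exact this.eventually_lt_const zero_lt_one
  filter_upwards [hK, h1] with y hy hy1
  calc ‖s e y‖ ≤ K * ‖y - p‖ ^ (m + 1) := hy
    _ ≤ max K 0 * ‖y - p‖ ^ (m + 1) :=
        mul_le_mul_of_nonneg_right (le_max_left _ _) (pow_nonneg (norm_nonneg _) _)
    _ ≤ max K 0 * ‖y - p‖ ^ m :=
        mul_le_mul_of_nonneg_left
          (pow_le_pow_of_le_one (norm_nonneg _) hy1.le (Nat.le_succ m)) (le_max_right _ _)

/-- double counting -/
theorem q6_count {N A : ℕ} (m : Fin N → ℕ) (hm : ∀ j, m j ≤ A) :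
    ∑ i ∈ Finset.Icc 1 A, (((Finset.univ.filter fun j => i ≤ m j).card : ℕ) : ℝ)
      = ∑ j, (m j : ℝ) := by
  have h1 : ∀ i ∈ Finset.Icc 1 A, (((Finset.univ.filter fun j => i ≤ m j).card : ℕ) : ℝ)
      = ∑ j, if i ≤ m j then (1 : ℝ) else 0 := by
    intro i _
    rw [Finset.sum_boole]
  rw [Finset.sum_congr rfl h1, Finset.sum_comm]
  refine Finset.sum_congr rfl fun j _ => ?_
  rw [Finset.sum_boole]
  have h2 : (Finset.Icc 1 A).filter (fun i => i ≤ m j) = Finset.Icc 1 (m j) := by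
    ext i
    simp only [Finset.mem_filter, Finset.mem_Icc]
    have := hm j
    omega
  rw [h2, Nat.card_Icc, Nat.add_sub_cancel]

theorem q6_lim (n : ℕ) {Q δ : ℝ} (hQ : 0 < Q) (hδ : 0 < δ) :
    ∀ᶠ K : ℕ in atTop, (n : ℝ) * (1 + 1 / K) * Q ^ (1 / ((K : ℝ) + 1)) ≤ n + δ := by
  have h1 : Tendsto (fun k : ℕ => Q ^ (1 / ((k : ℝ) + 1))) atTop (𝓝 1) := by
    have h2 : Tendsto (fun k : ℕ => 1 / ((k : ℝ) + 1)) atTop (𝓝 0) :=
      tendsto_one_div_add_atTop_nhds_zero_nat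
    have h3 := (Real.continuous_const_rpow hQ.ne').tendsto (0 : ℝ)
    rw [Real.rpow_zero] at h3
    exact h3.comp h2
  have h4 : Tendsto (fun k : ℕ => (n : ℝ) * (1 + 1 / (k : ℝ))) atTop (𝓝 (n * (1 + 0))) :=
    (tendsto_const_nhds.add tendsto_one_div_atTop_nhds_zero_nat).const_mul _
  have h5 := h4.mul h1
  rw [add_zero, mul_one, mul_one] at h5
  exact h5.eventually_le_const (by linarith)

/-- the final computation -/
theorem q6_final {n K N G : ℕ} {v v0 Q δ ε η a S : ℝ} (hvp : 0 < v) (hv0p : 0 < v0) (hQp : 0 < Q)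
    (hδ : 0 < δ) (hε2 : 0 ≤ 1 - ε) (hε0 : 0 ≤ ε) (hεG : ε ≤ δ / (4 * (G + 1)))
    (hη : η = v * δ / (4 * (G + 1)))
    (hKp : (0 : ℝ) < K) (hG0 : (0 : ℝ) ≤ G) (hv0a : v0 * a = (1 - ε) * v * (K : ℝ) ^ n)
    (hmain : S * (1 / v0) ≤ a * (n * (K + 1)) * Q ^ (1 / ((K : ℝ) + 1))
      + G * K * (N * (1 / v0) - a))
    (hN : (N : ℝ) ≤ (v + η) * (K : ℝ) ^ n)
    (hlim : (n : ℝ) * (1 + 1 / K) * Q ^ (1 / ((K : ℝ) + 1)) ≤ n + δ / 2) :
    S ≤ (n + δ) * v * (K : ℝ) ^ (n + 1) := by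
  set Y : ℝ := Q ^ (1 / ((K : ℝ) + 1)) with hY
  have hYp : 0 < Y := Real.rpow_pos_of_pos hQp _
  have hKn : (0 : ℝ) < (K : ℝ) ^ n := by positivity
  have hG1 : (0 : ℝ) < (G : ℝ) + 1 := by positivity
  have h1 : S ≤ (v0 * a) * (n * (K + 1)) * Y + G * K * (N - v0 * a) := by
    have h2 := mul_le_mul_of_nonneg_left hmain hv0p.le
    have h3 : v0 * (S * (1 / v0)) = S := by field_simp
    have h4 : v0 * (a * (n * (K + 1)) * Y + G * K * (N * (1 / v0) - a))
        = (v0 * a) * (n * (K + 1)) * Y + G * K * (N - v0 * a) := by field_simp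
    rw [h3, h4] at h2
    exact h2
  rw [hv0a] at h1
  have h5 : (1 - ε) * v * (K : ℝ) ^ n * (n * (K + 1)) * Y
      ≤ v * (K : ℝ) ^ (n + 1) * (n + δ / 2) := by
    have h6 : (1 - ε) * v * (K : ℝ) ^ n * (n * (K + 1)) * Y
        = (1 - ε) * (v * (K : ℝ) ^ (n + 1) * (n * (1 + 1 / K) * Y)) := by
      rw [pow_succ]
      field_simp
    rw [h6]
    have h7 : v * (K : ℝ) ^ (n + 1) * (n * (1 + 1 / K) * Y)
        ≤ v * (K : ℝ) ^ (n + 1) * (n + δ / 2) :=
      mul_le_mul_of_nonneg_left hlim (by positivity)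
    have h8 : 0 ≤ v * (K : ℝ) ^ (n + 1) * (n * (1 + 1 / K) * Y) := by positivity
    have h9 : (1 - ε) * (v * (K : ℝ) ^ (n + 1) * (n * (1 + 1 / K) * Y))
        ≤ 1 * (v * (K : ℝ) ^ (n + 1) * (n * (1 + 1 / K) * Y)) :=
      mul_le_mul_of_nonneg_right (by linarith) h8
    rw [one_mul] at h9
    exact h9.trans h7
  have hGε : (G : ℝ) * ε ≤ δ / 4 := by
    calc (G : ℝ) * ε ≤ G * (δ / (4 * (G + 1))) := mul_le_mul_of_nonneg_left hεG hG0
      _ = (G / (G + 1)) * (δ / 4) := by field_simp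
      _ ≤ 1 * (δ / 4) := by
          apply mul_le_mul_of_nonneg_right _ (by positivity)
          rw [div_le_one hG1]
          linarith
      _ = δ / 4 := one_mul _
  have hGη : (G : ℝ) * η ≤ v * δ / 4 := by
    calc (G : ℝ) * η = (G / (G + 1)) * (v * δ / 4) := by rw [hη]; field_simp
      _ ≤ 1 * (v * δ / 4) := by
          apply mul_le_mul_of_nonneg_right _ (by positivity)
          rw [div_le_one hG1]
          linarith
      _ = v * δ / 4 := one_mul _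
  have h9 : (G : ℝ) * K * (N - (1 - ε) * v * (K : ℝ) ^ n)
      ≤ v * δ / 2 * (K : ℝ) ^ (n + 1) := by
    have h10 : (N : ℝ) - (1 - ε) * v * (K : ℝ) ^ n ≤ (η + ε * v) * (K : ℝ) ^ n := by
      have : (η + ε * v) * (K : ℝ) ^ n = (v + η) * (K : ℝ) ^ n - (1 - ε) * v * (K : ℝ) ^ n := by
        ring
      rw [this]
      linarith
    have h11 : (G : ℝ) * K * (N - (1 - ε) * v * (K : ℝ) ^ n)
        ≤ G * K * ((η + ε * v) * (K : ℝ) ^ n) :=
      mul_le_mul_of_nonneg_left h10 (by positivity)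
    have h12 : (G : ℝ) * K * ((η + ε * v) * (K : ℝ) ^ n)
        = (G * η + G * ε * v) * (K : ℝ) ^ (n + 1) := by
      rw [pow_succ]; ring
    have h13 : (G : ℝ) * η + G * ε * v ≤ v * δ / 2 := by
      have : (G : ℝ) * ε * v ≤ δ / 4 * v := mul_le_mul_of_nonneg_right hGε hvp.le
      linarith
    have h14 : ((G : ℝ) * η + G * ε * v) * (K : ℝ) ^ (n + 1) ≤ v * δ / 2 * (K : ℝ) ^ (n + 1) :=
      mul_le_mul_of_nonneg_right h13 (by positivity)
    linarith
  calc S ≤ _ := h1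
    _ ≤ v * (K : ℝ) ^ (n + 1) * (n + δ / 2) + v * δ / 2 * (K : ℝ) ^ (n + 1) := add_le_add h5 h9
    _ = (n + δ) * v * (K : ℝ) ^ (n + 1) := by ring

/-- the sum of the orders of vanishing -/
theorem sum_ord [IsProbabilityMeasure μ] (hn : 0 < n) (hφ : IsPos 1 φ) (hμ : IsDens μ φ)
    (hdl : ∀ x, dl φ x = (Real.pi * (n + 1)) ^ n / n.factorial)
    (hdim : ∀ η > 0, ∃ k₀ : ℕ, ∀ k ≥ k₀, (Module.finrank ℂ (H0 n M k) : ℝ)
      ≤ ((n + 1) ^ n / n.factorial + η) * (k : ℝ) ^ n)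
    {δ : ℝ} (hδ : 0 < δ) : ∃ K₀ : ℕ, ∀ K ≥ K₀, ∀ e ∈ atlas (E n) M, ∀ p ∈ e.target, ∀ A : ℕ,
      (∑ m ∈ Finset.Icc 1 A, (Module.finrank ℂ (VV K e p m) : ℝ))
        ≤ (n + δ) * ((n + 1) ^ n / n.factorial) * (K : ℝ) ^ (n + 1) := by
  have hπ := Real.pi_pos
  obtain ⟨C, hC, hup⟩ := onb_upper (μ := μ) hφ hμ
  obtain ⟨G, hG⟩ := ord_le (μ := μ) hφ hμ
  set v : ℝ := (n + 1) ^ n / n.factorial with hv
  have hvp : 0 < v := by positivity
  set v0 : ℝ := (Real.pi * (n + 1)) ^ n / n.factorial with hv0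
  have hv0p : 0 < v0 := by positivity
  have hvv : v0 = Real.pi ^ n * v := by rw [hv0, hv, mul_pow, mul_div_assoc]
  have hG1 : (0 : ℝ) < (G : ℝ) + 1 := by positivity
  set ε : ℝ := min (1 / 2) (δ / (4 * (G + 1))) with hε
  have hεp : 0 < ε := lt_min (by norm_num) (by positivity)
  have hε1 : ε < 1 := (min_le_left _ _).trans_lt (by norm_num)
  have hε2 : 0 < 1 - ε := by linarith
  set η : ℝ := v * δ / (4 * (G + 1)) with hη
  have hηp : 0 < η := by positivity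
  obtain ⟨k₁, hk₁⟩ := onb_lower (μ := μ) hφ hμ hεp hε1
  obtain ⟨k₂, hk₂⟩ := hdim η hηp
  set Q : ℝ := C * Real.pi ^ n / (1 - ε) with hQ
  have hQp : 0 < Q := by positivity
  obtain ⟨k₃, hk₃⟩ := eventually_atTop.1 (q6_lim n hQp (half_pos hδ))
  refine ⟨max k₁ (max k₂ k₃), fun K hK e he p hpt A => ?_⟩
  have hKk1 : k₁ ≤ K := (le_max_left _ _).trans hK
  have hKk2 : k₂ ≤ K := ((le_max_left _ _).trans (le_max_right _ _)).trans hK
  have hKk3 : k₃ ≤ K := ((le_max_right _ _).trans (le_max_right _ _)).trans hK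
  obtain ⟨hK1, hlow⟩ := hk₁ K hKk1
  have hKp : (0 : ℝ) < K := by exact_mod_cast hK1
  obtain ⟨N, s, m, hs, hsV, hmA, hcard⟩ := onb_adapted (μ := μ) hφ hμ hK1
    (fun m => VV K e p m) (q6_VV_zero he hpt) (fun m => q6_VV_succ_le m) A
  obtain ⟨-, hlow⟩ := hlow N s hs
  have hup' := hup K hK1 N s hs
  obtain ⟨hNf, hint⟩ := onb_card hφ hμ hK1 hs
  have hh : ∀ j, IsHol K (s j) := fun j => (hs.1 j).1
  have hsum : ∑ i ∈ Finset.Icc 1 A, (Module.finrank ℂ (VV K e p i) : ℝ) = ∑ j, (m j : ℝ) := by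
    rw [← q6_count m hmA]
    refine Finset.sum_congr rfl fun i hi => ?_
    rw [hcard i (Finset.mem_Icc.1 hi).2]
  rw [hsum]
  -- norms
  have hnc : ∀ j, ∫ x, nrm K φ (s j) x ∂μ = 1 / v0 := by
    intro j
    have h1 := hs.2.1 j j
    rw [if_pos rfl] at h1
    have h2 : ∀ x, hp K φ (s j) (s j) x * (dl φ x : ℂ) = ((nrm K φ (s j) x * v0 : ℝ) : ℂ) := by
      intro x
      rw [q6_hp_self, hdl x]
      push_cast
      rfl
    have h3 : ∫ x, hp K φ (s j) (s j) x * (dl φ x : ℂ) ∂μ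
        = ((∫ x, nrm K φ (s j) x * v0 ∂μ : ℝ) : ℂ) := by
      have h5 : ∫ x, ((nrm K φ (s j) x * v0 : ℝ) : ℂ) ∂μ
          = ((∫ x, nrm K φ (s j) x * v0 ∂μ : ℝ) : ℂ) := integral_ofReal
      rw [← h5]
      exact integral_congr_ae (Eventually.of_forall h2)
    rw [h3, integral_mul_const] at h1
    have h4 : (∫ x, nrm K φ (s j) x ∂μ) * v0 = 1 := by exact_mod_cast h1
    rw [eq_div_iff hv0p.ne']
    exact h4
  have hne : ∀ j, s j ≠ 0 := by
    intro j h0
    have h1 := hnc j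
    rw [h0] at h1
    have h2 : ∀ x : M, nrm K φ (0 : Fam n M ℂ) x = 0 := by
      intro x
      unfold nrm
      simp
    simp_rw [h2] at h1
    rw [integral_zero] at h1
    have : 0 < 1 / v0 := by positivity
    linarith
  have hmG : ∀ j, (m j : ℝ) ≤ G * K := by
    intro j
    have h1 := hG K hK1 e he p hpt (s j) (hs.1 j) (hne j) (m j) (hsV j).2
    exact_mod_cast h1
  set θ : ℝ := 1 / ((K : ℝ) + 1) with hθ
  have hθp : 0 < θ := by positivity
  have hθk : θ * K < 1 := by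
    rw [hθ, one_div, inv_mul_lt_iff₀ (by positivity)]; linarith
  set a : ℝ := (1 - ε) * (K / Real.pi) ^ n with ha
  have hap : 0 < a := by positivity
  have havg := avg_ord (μ := μ) hφ hμ hh (fun x => hap.trans_le (hlow x)) he hpt
    (fun j => (hsV j).2) hθp hθk
  have hmain := q6_elem (μ := μ) (f := fun j => nrm K φ (s j))
    (fun j => (continuous_nrm hφ.toIsWeight (hh j).toIsSec).measurable)
    (fun j x => q6_nrm_nonneg K φ (s j) x) hap hlow hup' hmG hθp hnc havg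
  have hba : C * (K : ℝ) ^ n / a = Q := by
    rw [ha, hQ, div_pow]
    field_simp
  have hnθ : (n : ℝ) / θ = n * (K + 1) := by
    rw [hθ, div_div_eq_mul_div, div_one]
  rw [hba, hnθ] at hmain
  have hv0a : v0 * a = (1 - ε) * v * (K : ℝ) ^ n := by
    rw [hvv, ha, div_pow]
    field_simp
  have hN : (N : ℝ) ≤ (v + η) * (K : ℝ) ^ n := by
    rw [hNf]
    exact hk₂ K hKk2
  exact q6_final hvp hv0p hQp hδ hε2.le hεp.le (min_le_right _ _) hη hKp (Nat.cast_nonneg _) hv0a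
    hmain hN (hk₃ K hKk3)

end Pool.Agent.helper63.NU
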