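import Pool.Agent.helper31.NU.P1

set_option autoImplicit false
set_option linter.all false

/-! Module P5: the invariant finite dimensional spaces `G^k`; density. -/

open MeasureTheory Filter Topology Set
open scoped ContDiff

noncomputable section

namespace Pool.Agent.helper31.NU

variable {M : Type*} [TopologicalSpace M] [CompactSpace M] [Nonempty M] [MeasurableSpace M]
  [BorelSpace M] {σ : Measure M} [IsProbabilityMeasure σ] [σ.IsOpenPosMeasure]
  {S : Set (M → ℝ)} {L : (M → ℝ) → M → ℝ} {Γ : (M → ℝ) → (M → ℝ) → M → ℝ} {n : ℝ}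
  {G : Submodule ℝ (M → ℝ)}

omit [CompactSpace M] [Nonempty M] [BorelSpace M] [IsProbabilityMeasure σ]
  [σ.IsOpenPosMeasure] in
theorem Diff.p5_mem (D : Diff σ S L Γ n) (hG : ∀ u ∈ G, u ∈ S) (k : ℕ) :
    ∀ u ∈ G ^ k, u ∈ S := by
  induction k with
  | zero =>
    intro u hu
    rw [pow_zero, Submodule.mem_one] at hu
    obtain ⟨c, rfl⟩ := hu
    exact D.const c
  | succ k ih =>
    intro u hu
    rw [pow_succ] at hu
    refine Submodule.mul_induction_on hu ?_ ?_
    · intro p hp g hg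
      exact D.mul p (ih p hp) g (hG g hg)
    · intro x y hx hy
      exact D.add x hx y hy

theorem Diff.p5_gamma (D : Diff σ S L Γ n) (hG : ∀ u ∈ G, u ∈ S)
    (hΓ : ∀ u ∈ G, ∀ v ∈ G, Γ u v ∈ G * G) (k : ℕ) :
    ∀ g ∈ G, ∀ p ∈ G ^ k, Γ p g ∈ G ^ (k + 1) := by
  induction k with
  | zero =>
    intro g hg p hp
    rw [pow_zero, Submodule.mem_one] at hp
    obtain ⟨c, rfl⟩ := hp
    have h1 : Γ (algebraMap ℝ (M → ℝ) c) g = 0 := by
      funext x
      exact D.Gconst c g (hG g hg) x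
    rw [h1]
    exact zero_mem _
  | succ k ih =>
    intro g hg p hp
    rw [pow_succ] at hp
    have key : p ∈ S ∧ Γ p g ∈ G ^ (k + 1 + 1) := by
      refine Submodule.mul_induction_on hp ?_ ?_
      · intro q hq h hh
        have hqS := D.p5_mem hG k q hq
        have hhS := hG h hh
        refine ⟨D.mul q hqS h hhS, ?_⟩
        have h1 : Γ (q * h) g = q * Γ h g + h * Γ q g := by
          funext x
          exact D.Gmul q hqS h hhS g (hG g hg) x
        rw [h1]
        refine add_mem ?_ ?_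
        · have h2 : G ^ (k + 1 + 1) = G ^ k * (G * G) := by
            rw [pow_succ, pow_succ, mul_assoc]
          rw [h2]
          exact Submodule.mul_mem_mul hq (hΓ h hh g hg)
        · have h2 : G ^ (k + 1 + 1) = G * G ^ (k + 1) := by
            rw [pow_succ' G (k + 1)]
          rw [h2]
          exact Submodule.mul_mem_mul hh (ih g hg q hq)
      · intro x y hx hy
        refine ⟨D.add x hx.1 y hy.1, ?_⟩
        have h1 : Γ (x + y) g = Γ x g + Γ y g := by
          funext z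
          exact D.Gadd x hx.1 y hy.1 g (hG g hg) z
        rw [h1]
        exact add_mem hx.2 hy.2
    exact key.2

/-- `Γ(g, p) ∈ G^{k+1}` for `g ∈ G`, `p ∈ G^k` by induction (`Gmul`), then
`L(g p) = g L p + p L g + 2 Γ(g, p)` (`Submodule.pow_succ`, `Submodule.mul_induction_on`). -/
theorem Diff.pow_space (D : Diff σ S L Γ n) [FiniteDimensional ℝ G] (hG : ∀ u ∈ G, u ∈ S)
    (h1 : (fun _ => (1 : ℝ)) ∈ G) (hL : ∀ u ∈ G, L u ∈ G)
    (hΓ : ∀ u ∈ G, ∀ v ∈ G, Γ u v ∈ G * G) (k : ℕ) :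
    FiniteDimensional ℝ (G ^ k : Submodule ℝ (M → ℝ)) ∧ (∀ u ∈ G ^ k, u ∈ S) ∧
      (∀ u ∈ G ^ k, L u ∈ G ^ k) ∧ (fun _ => (1 : ℝ)) ∈ G ^ k := by
  refine ⟨?_, D.p5_mem hG k, ?_, ?_⟩
  · have h2 : G.FG := (Submodule.fg_iff_finiteDimensional G).2 inferInstance
    exact (Submodule.fg_iff_finiteDimensional _).1 (h2.pow k)
  · induction k with
    | zero =>
      intro u hu
      rw [pow_zero, Submodule.mem_one] at hu
      obtain ⟨c, rfl⟩ := hu
      have h2 : L (algebraMap ℝ (M → ℝ) c) = 0 := by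
        funext x
        exact D.Lconst c x
      rw [h2]
      exact zero_mem _
    | succ k ih =>
      intro u hu
      rw [pow_succ] at hu
      have key : u ∈ S ∧ L u ∈ G ^ (k + 1) := by
        refine Submodule.mul_induction_on hu ?_ ?_
        · intro p hp g hg
          have hpS := D.p5_mem hG k p hp
          have hgS := hG g hg
          refine ⟨D.mul p hpS g hgS, ?_⟩
          have h2 : L (p * g) = p * L g + g * L p + ((2 : ℝ) • Γ p g) := by
            funext x
            exact D.Lmul p hpS g hgS x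
          rw [h2]
          refine add_mem (add_mem ?_ ?_) (Submodule.smul_mem _ _ (D.p5_gamma hG hΓ k g hg p hp))
          · rw [pow_succ]
            exact Submodule.mul_mem_mul hp (hL g hg)
          · rw [pow_succ']
            exact Submodule.mul_mem_mul hg (ih p hp)
        · intro x y hx hy
          refine ⟨D.add x hx.1 y hy.1, ?_⟩
          have h2 : L (x + y) = L x + L y := by
            funext z
            exact D.Ladd x hx.1 y hy.1 z
          rw [h2]
          exact add_mem hx.2 hy.2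
      exact key.2
  · induction k with
    | zero =>
      rw [pow_zero, Submodule.mem_one]
      exact ⟨1, rfl⟩
    | succ k ih =>
      rw [pow_succ]
      have h2 : (fun _ : M => (1 : ℝ)) = (fun _ => (1 : ℝ)) * (fun _ => (1 : ℝ)) := by
        funext x
        simp
      rw [h2]
      exact Submodule.mul_mem_mul ih h1

omit [CompactSpace M] [Nonempty M] [MeasurableSpace M] [BorelSpace M] in
theorem p5_mono (h1 : (fun _ => (1 : ℝ)) ∈ G) {k l : ℕ} (hkl : k ≤ l) : G ^ k ≤ G ^ l := by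
  induction hkl with
  | refl => exact le_rfl
  | @step l _ ih =>
    refine ih.trans ?_
    intro u hu
    rw [pow_succ]
    have h2 : u = u * (fun _ => (1 : ℝ)) := by
      funext x
      simp
    rw [h2]
    exact Submodule.mul_mem_mul hu h1

/-- maximum principle for `w - L w` -/
theorem Diff.p5_max (D : Diff σ S L Γ n) {w : M → ℝ} (hw : w ∈ S) {ε : ℝ}
    (h : ∀ x, |w x - L w x| ≤ ε) : ∀ x, |w x| ≤ ε := by
  have hlow : ∀ v ∈ S, (∀ x, |v x - L v x| ≤ ε) → ∀ x, -ε ≤ v x := by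
    intro v hv hvε x
    obtain ⟨x₀, -, hx₀⟩ := isCompact_univ.exists_isMinOn (univ_nonempty (α := M))
      (D.cont v hv).continuousOn
    have h1 : ∀ y, v x₀ ≤ v y := fun y => hx₀ (mem_univ y)
    have h2 := D.min v hv x₀ h1
    have h3 := (abs_le.1 (hvε x₀)).1
    linarith [h1 x]
  have hneg : (-1 : ℝ) • w ∈ S := D.smul hw (-1)
  intro x
  rw [abs_le]
  refine ⟨hlow w hw h x, ?_⟩
  have h1 := hlow _ hneg (fun y => by
    rw [D.Lsmul hw (-1) y, Pi.smul_apply, smul_eq_mul]
    have := h y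
    rw [← abs_neg] at this
    calc |-1 * w y - -1 * L w y| = |-(w y - L w y)| := by congr 1; ring
      _ ≤ ε := this) x
  rw [Pi.smul_apply, smul_eq_mul] at h1
  linarith

/-- `h := g - L g`.  By Stone–Weierstrass there is `p ∈ G^k` with `|h - p| ≤ ε`.  `u ↦ u - L u` is
injective on `G^k` (`∫ u (u - L u) = ∫ u² + ∫ Γ(u)`), hence onto: `q - L q = p`.  `w = g - q`
satisfies `w - L w = h - p`, so at a maximum (minimum) point of `w`: `|w| ≤ ε` (`D.min`), and
`∫ w² + ∫ Γ(w) = ∫ w (w - L w) ≤ ε²`. -/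
theorem Diff.dense (D : Diff σ S L Γ n) [FiniteDimensional ℝ G] (hG : ∀ u ∈ G, u ∈ S)
    (h1 : (fun _ => (1 : ℝ)) ∈ G) (hL : ∀ u ∈ G, L u ∈ G)
    (hΓ : ∀ u ∈ G, ∀ v ∈ G, Γ u v ∈ G * G) (hsep : ∀ x y : M, x ≠ y → ∃ u ∈ G, u x ≠ u y)
    {g : M → ℝ} (hg : g ∈ S) {ε : ℝ} (hε : 0 < ε) :
    ∃ k, ∃ q ∈ G ^ k, (∀ x, |g x - q x| ≤ ε) ∧ ∫ x, Γ (g - q) (g - q) x ∂σ ≤ ε ^ 2 := by
  -- the algebra
  let A : Subalgebra ℝ C(M, ℝ) :=
    { carrier := {f | ∃ k, (f : M → ℝ) ∈ G ^ k}
      mul_mem' := by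
        rintro f f' ⟨k, hk⟩ ⟨l, hl⟩
        refine ⟨k + l, ?_⟩
        rw [pow_add]
        exact Submodule.mul_mem_mul hk hl
      add_mem' := by
        rintro f f' ⟨k, hk⟩ ⟨l, hl⟩
        refine ⟨k + l, ?_⟩
        exact add_mem (p5_mono h1 (Nat.le_add_right k l) hk) (p5_mono h1 (Nat.le_add_left l k) hl)
      algebraMap_mem' := by
        intro c
        refine ⟨0, ?_⟩
        rw [pow_zero, Submodule.mem_one]
        exact ⟨c, rfl⟩ }
  have hA : A.SeparatesPoints := by
    intro x y hxy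
    obtain ⟨u, hu, huxy⟩ := hsep x y hxy
    refine ⟨u, ⟨⟨u, D.cont u (hG u hu)⟩, ⟨1, ?_⟩, rfl⟩, huxy⟩
    rw [pow_one]
    exact hu
  set h : M → ℝ := g - L g with hh
  have hhS : h ∈ S := D.sub hg (D.memL g hg)
  obtain ⟨⟨p, k, hp⟩, hpε⟩ :=
    ContinuousMap.exists_mem_subalgebra_near_continuous_of_separatesPoints A hA h (D.cont h hhS)
      ε hε
  obtain ⟨hfd, hkS, hkL, -⟩ := D.pow_space hG h1 hL hΓ k
  -- the operator `1 - L` on `G^k`
  let T : ↥(G ^ k : Submodule ℝ (M → ℝ)) →ₗ[ℝ] ↥(G ^ k : Submodule ℝ (M → ℝ)) :=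
    { toFun := fun u => ⟨u.1 - L u.1, sub_mem u.2 (hkL u.1 u.2)⟩
      map_add' := by
        intro u v
        apply Subtype.ext
        funext x
        simp only [Submodule.coe_add, Pi.sub_apply, Pi.add_apply]
        rw [D.Ladd u.1 (hkS _ u.2) v.1 (hkS _ v.2) x]
        ring
      map_smul' := by
        intro c u
        apply Subtype.ext
        funext x
        simp only [Submodule.coe_smul, Pi.sub_apply, Pi.smul_apply, smul_eq_mul, RingHom.id_apply]
        rw [D.Lsmul (hkS _ u.2) c x]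
        ring }
  have hT : Function.Injective T := by
    rw [← LinearMap.ker_eq_bot, LinearMap.ker_eq_bot']
    intro u hu
    have h2 : ∀ x, u.1 x - L u.1 x = 0 := fun x => congrFun (congrArg Subtype.val hu) x
    have h3 := D.p5_max (hkS _ u.2) (ε := 0) (fun x => by rw [h2 x, abs_zero])
    apply Subtype.ext
    funext x
    exact abs_nonpos_iff.1 (h3 x)
  obtain ⟨⟨q, hq⟩, hTq⟩ := (LinearMap.injective_iff_surjective (f := T)).1 hT ⟨p, hp⟩
  have hqp : ∀ x, q x - L q x = p x := fun x => congrFun (congrArg Subtype.val hTq) x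
  have hqS := hkS q hq
  have hwS : g - q ∈ S := D.sub hg hqS
  have hwL : ∀ x, (g - q) x - L (g - q) x = h x - p x := by
    intro x
    rw [D.Lsub hg hqS x, Pi.sub_apply, hh, Pi.sub_apply, ← hqp x]
    ring
  have hwε : ∀ x, |(g - q) x - L (g - q) x| ≤ ε := by
    intro x
    rw [hwL x, abs_sub_comm]
    exact (hpε x).le
  have hmax := D.p5_max hwS hwε
  refine ⟨k, q, hq, fun x => hmax x, ?_⟩
  have hibp := D.ibp hwS hwS
  have hint1 : Integrable (fun x => (g - q) x * L (g - q) x) σ :=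
    D.integrable (D.mul _ hwS _ (D.memL _ hwS))
  have hint2 : Integrable (fun x => (g - q) x * (g - q) x) σ :=
    D.integrable (D.mul _ hwS _ hwS)
  have h4 : ∫ x, Γ (g - q) (g - q) x ∂σ
      = ∫ x, ((g - q) x * (g - q) x - (g - q) x * L (g - q) x) ∂σ
        - ∫ x, (g - q) x * (g - q) x ∂σ := by
    rw [integral_sub hint2 hint1, hibp]
    ring
  have h5 : ∫ x, ((g - q) x * (g - q) x - (g - q) x * L (g - q) x) ∂σ ≤ ∫ x, ε ^ 2 ∂σ := by
    refine integral_mono (hint2.sub hint1) (integrable_const _) fun x => ?_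
    show (g - q) x * (g - q) x - (g - q) x * L (g - q) x ≤ ε ^ 2
    have h6 : (g - q) x * (g - q) x - (g - q) x * L (g - q) x
        = (g - q) x * ((g - q) x - L (g - q) x) := by ring
    rw [h6, sq]
    calc (g - q) x * ((g - q) x - L (g - q) x)
        ≤ |(g - q) x * ((g - q) x - L (g - q) x)| := le_abs_self _
      _ = |(g - q) x| * |(g - q) x - L (g - q) x| := abs_mul _ _
      _ ≤ ε * ε := mul_le_mul (hmax x) (hwε x) (abs_nonneg _) hε.le
  have h7 : 0 ≤ ∫ x, (g - q) x * (g - q) x ∂σ := integral_nonneg fun x => mul_self_nonneg _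
  have h8 : ∫ x : M, ε ^ 2 ∂σ = ε ^ 2 := by simp
  rw [h8] at h5
  linarith

end Pool.Agent.helper31.NU
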